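import Pool.Agent.Y991.LF.Eight

set_option autoImplicit false

/-!
# Lefschetz properties of balanced spheres: all dimensions

For every `d ≥ 4` there is a balanced simplicial `(d-1)`-sphere whose Stanley-Reisner ring modulo the
colored parameter system fails the strong Lefschetz property over every field, and for every `d ≥ 5`
different from `6` there is one which fails the weak Lefschetz property over every field.

Proof. Let `Δ` be the 3-sphere of the starting file `SLPFails`. Suspensions of `Δ` are spheres (joins of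
spheres are spheres, `Y991.LF.join_homeo`), with the algebra `A[τ] / (τ²)`; if the square of a linear
form is not injective from `A_k` and not onto from `A_m`, then the linear forms are not injective from
degree `k + 1` and not onto from degree `m + 1` after one suspension, and the squares are again
not injective and not onto after two. For even `d ≥ 8` we take the join of two copies of `Δ` (the
algebra of a join is the tensor product) and its iterated suspensions.
-/

set_option maxHeartbeats 400000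

universe u

namespace Pool.Agent.Results.MP_5d3ebc_al.AllDimensions

open Pool.Agent.Results.MP_5d3ebc_al.SLPFails
open Pool.Agent.Results.MP_5d3ebc_al.WLPFails (HasWLP)
open Pool.Agent.Y991.LF

/-- There is a balanced sphere with `d` colors for which the `j`-th powers of the linear forms are
neither injective nor onto from degree `k`. -/
def Ex (d k j : ℕ) : Prop :=
  ∃ (n : ℕ) (Δ : Finset (Finset (Fin n))) (c : Fin n → Fin d),
    IsSphere d Δ ∧ IsProperColoring Δ c ∧
    ∀ (K : Type u) [Field K], NInj K Δ c k j ∧ NSurj K Δ c k j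

lemma sphere_susp {d n : ℕ} {Δ : Finset (Finset (Fin n))} (h : IsSphere (d + 1) Δ) :
    IsSphere (d + 1 + 1) (join Δ S0) := by
  obtain ⟨C⟩ := exists_cone Δ h
  obtain ⟨C'⟩ := exists_cone_S0
  exact isSphere_join Δ S0 h.1 isComplex_S0 C C'

lemma ex_two {d k d' : ℕ} (h : Ex.{u} (d + 1) k 2) (hd : d' = d + 1 + 1) :
    Ex.{u} d' (k + 1) 1 := by
  subst hd
  obtain ⟨n, Δ, c, h1, h2, h3⟩ := h
  refine ⟨n + 2, join Δ S0, jc c cS, sphere_susp h1, proper_jc h2 proper_cS, ?_⟩
  intro K _
  exact ⟨ninj_two (h3 K).1, nsurj_two (h3 K).2⟩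

lemma ex_one {d k d' : ℕ} (h : Ex.{u} (d + 1) (k + 1) 1) (hd : d' = d + 1 + 1) :
    Ex.{u} d' (k + 1) 2 := by
  subst hd
  obtain ⟨n, Δ, c, h1, h2, h3⟩ := h
  refine ⟨n + 2, join Δ S0, jc c cS, sphere_susp h1, proper_jc h2 proper_cS, ?_⟩
  intro K _
  exact ⟨ninj_one (h3 K).1, nsurj_one (h3 K).2⟩

lemma ex_congr {d d' k k' j : ℕ} (h : Ex.{u} d k j) (hd : d' = d) (hk : k' = k) :
    Ex.{u} d' k' j := by
  subst hd hk
  exact h

lemma ex_zero : Ex.{u} 4 1 2 :=
  ⟨24, Δ0, c0, isSphere_Δ0, proper_c0, fun K _ => ⟨base_inj K, base_surj K⟩⟩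

lemma ex_even (r : ℕ) : Ex.{u} (2 * r + 4) (r + 1) 2 := by
  induction r with
  | zero => exact ex_zero
  | succ r ih =>
    have h1 : Ex.{u} ((2 * r + 3) + 1) (r + 1) 2 := ex_congr ih (by omega) rfl
    have h2 : Ex.{u} ((2 * r + 4) + 1) ((r + 1) + 1) 1 := ex_two h1 (by omega)
    exact ex_one h2 (by omega)

lemma ex_odd (r : ℕ) : Ex.{u} (2 * r + 5) (r + 2) 1 := by
  have h1 : Ex.{u} ((2 * r + 3) + 1) (r + 1) 2 := ex_congr (ex_even r) (by omega) rfl
  exact ex_two h1 (by omega)

lemma ex_eight : Ex.{u} (4 + 4) 3 1 := by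
  obtain ⟨C⟩ := exists_cone (d := 3) _ isSphere_Δ0
  refine ⟨24 + 24, join Δ0 Δ0, jc c0 c0, isSphere_join _ _ isSphere_Δ0.1 isSphere_Δ0.1 C C,
    proper_jc proper_c0 proper_c0, ?_⟩
  intro K _
  exact ⟨eight_inj K, eight_surj K⟩

lemma ex_join (r : ℕ) : Ex.{u} (2 * r + 8) (r + 3) 1 := by
  induction r with
  | zero => exact ex_congr ex_eight (by norm_num) (by norm_num)
  | succ r ih =>
    have h1 : Ex.{u} ((2 * r + 7) + 1) ((r + 2) + 1) 1 := ex_congr ih (by omega) (by omega)
    have h2 : Ex.{u} ((2 * r + 8) + 1) ((r + 2) + 1) 2 := ex_one h1 (by omega)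
    exact ex_congr (ex_two (d' := 2 * r + 10) h2 (by omega)) (by omega) (by omega)

/-- **Balanced spheres without the Lefschetz properties, in all dimensions.** For every `d ≥ 4` there is
a balanced simplicial `(d-1)`-sphere whose Stanley-Reisner ring modulo the colored parameter system fails
the strong Lefschetz property over every field; for every `d ≥ 5` with `d ≠ 6` there is a balanced
simplicial `(d-1)`-sphere whose Stanley-Reisner ring modulo the colored parameter system fails the weak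
Lefschetz property over every field. -/
theorem result :
    (∀ d : ℕ, 4 ≤ d → ∃ (n : ℕ) (Δ : Finset (Finset (Fin n))) (c : Fin n → Fin d),
      IsSphere d Δ ∧ IsProperColoring Δ c ∧ ∀ (K : Type u) [Field K], ¬ HasSLP K Δ c) ∧
    (∀ d : ℕ, 5 ≤ d → d ≠ 6 → ∃ (n : ℕ) (Δ : Finset (Finset (Fin n))) (c : Fin n → Fin d),
      IsSphere d Δ ∧ IsProperColoring Δ c ∧ ∀ (K : Type u) [Field K], ¬ HasWLP K Δ c) := by
  constructor
  · intro d hd
    rcases Nat.even_or_odd' d with ⟨r, rfl | rfl⟩
    · obtain ⟨s, rfl⟩ : ∃ s, r = s + 2 := ⟨r - 2, by omega⟩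
      obtain ⟨n, Δ, c, h1, h2, h3⟩ := ex_even.{u} s
      exact ⟨n, Δ, c, h1, h2, fun K _ => not_SLP_of K (by norm_num) (h3 K).1 (h3 K).2⟩
    · obtain ⟨s, rfl⟩ : ∃ s, r = s + 2 := ⟨r - 2, by omega⟩
      obtain ⟨n, Δ, c, h1, h2, h3⟩ := ex_odd.{u} s
      exact ⟨n, Δ, c, h1, h2, fun K _ => not_SLP_of K (by norm_num) (h3 K).1 (h3 K).2⟩
  · intro d hd h6
    rcases Nat.even_or_odd' d with ⟨r, rfl | rfl⟩
    · obtain ⟨s, rfl⟩ : ∃ s, r = s + 4 := ⟨r - 4, by omega⟩
      obtain ⟨n, Δ, c, h1, h2, h3⟩ := ex_join.{u} s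
      exact ⟨n, Δ, c, h1, h2, fun K _ => not_WLP_of K (h3 K).1 (h3 K).2⟩
    · obtain ⟨s, rfl⟩ : ∃ s, r = s + 2 := ⟨r - 2, by omega⟩
      obtain ⟨n, Δ, c, h1, h2, h3⟩ := ex_odd.{u} s
      exact ⟨n, Δ, c, h1, h2, fun K _ => not_WLP_of K (h3 K).1 (h3 K).2⟩

end Pool.Agent.Results.MP_5d3ebc_al.AllDimensions
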